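import Pool.Agent.Run7.h912.DG.Core
import Pool.Agent.Run7.h912.DG.Growth

/-!
The joint 2-adic structure of all Freiman homomorphisms of a set of integers with small doubling.
-/

set_option autoImplicit false

namespace Run7.h715.TA

open Finset Run7.h912.DG
open scoped Pointwise

/-- `f` is a Freiman homomorphism (of order two) on `A` -/
def Hom (A : Finset ℤ) (f : ℤ → ℤ) : Prop :=
  ∀ a ∈ A, ∀ b ∈ A, ∀ c ∈ A, ∀ e ∈ A, a + b = c + e → f a + f b = f c + f e

/-- `x` and `y` are congruent modulo `2 ^ m` under all Freiman homomorphisms of `A` into `ℤ` -/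
def Close (A : Finset ℤ) (m : ℕ) (x y : ℤ) : Prop := ∀ f : ℤ → ℤ, Hom A f → (2 : ℤ) ^ m ∣ f x - f y

/-- the joint 2-adic structure of finitely many Freiman homomorphisms which separate the points -/
theorem fam (A : Finset ℤ) (hA : A.Nonempty) (K : ℝ) (hK : ((A + A).card : ℝ) ≤ K * A.card)
    (d : ℕ) (f : Fin d → ℤ → ℤ) (hf : ∀ l, Hom A (f l))
    (hinj : ∀ x ∈ A, ∀ y ∈ A, (∀ l, f l x = f l y) → x = y) :
    ∃ (J : Fin d → Finset ℕ) (A' : Finset ℤ), A' ⊆ A ∧ (A.card : ℝ) ≤ K ^ 750 * A'.card ∧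
      (2 : ℝ) ^ (∑ l, (J l).card) ≤ K ^ 2000 * A.card ∧
      ((∑ l, ((J l).filter (fun j => j + 1 ∉ J l)).card : ℕ) : ℝ) ≤ 6300 * Real.log K ∧
      (∀ x ∈ A', ∀ y ∈ A', ∀ m : ℕ, (∀ l, (2 : ℤ) ^ m ∣ f l x - f l y) ↔
        ∀ l, (2 : ℤ) ^ m ∣ keep (J l) (f l x) - keep (J l) (f l y)) ∧
      ∀ m : ℕ,
        (A'.image (fun x l => f l x % 2 ^ m)).card ≤
          2 ^ (∑ l, ((J l).filter (fun j => j < m)).card) ∧
        (2 : ℝ) ^ (∑ l, ((J l).filter (fun j => j < m)).card) ≤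
          K ^ 2750 * (A'.image (fun x l => f l x % 2 ^ m)).card := by
  classical
  set F : ℤ → (Fin d → ℤ) := fun a l => f l a with hF
  have hFi : ∀ x ∈ A, ∀ y ∈ A, F x = F y → x = y := fun x hx y hy h =>
    hinj x hx y hy fun l => congrFun h l
  have hcard : (A.image F).card = A.card :=
    Finset.card_image_of_injOn fun a ha b hb h => hFi a ha b hb h
  have hne : (A.image F).Nonempty := hA.image F
  have hsum : (A.image F + A.image F).card ≤ (A + A).card := by
    have h1 : A.image F + A.image F = (A ×ˢ A).image (fun p => F p.1 + F p.2) := by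
      ext z
      simp only [Finset.mem_add, Finset.mem_image, Finset.mem_product]
      constructor
      · rintro ⟨_, ⟨a, ha, rfl⟩, _, ⟨b, hb, rfl⟩, rfl⟩
        exact ⟨(a, b), ⟨ha, hb⟩, rfl⟩
      · rintro ⟨p, ⟨h1, h2⟩, rfl⟩
        exact ⟨_, ⟨p.1, h1, rfl⟩, _, ⟨p.2, h2, rfl⟩, rfl⟩
    have h2 : A + A = (A ×ˢ A).image (fun p => p.1 + p.2) := Finset.add_def
    rw [h1, h2]
    apply card_image_le_of
    intro p hp q hq hpq
    rw [Finset.mem_product] at hp hq
    funext l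
    exact hf l p.1 hp.1 p.2 hp.2 q.1 hq.1 q.2 hq.2 hpq
  have hK' : ((A.image F + A.image F).card : ℝ) ≤ K * (A.image F).card := by
    rw [hcard]
    exact le_trans (by exact_mod_cast hsum) hK
  have hA0 : (0:ℝ) < A.card := by exact_mod_cast hA.card_pos
  have hK1 : 1 ≤ K := by
    have h1 : (A.card : ℝ) ≤ (A + A).card := by exact_mod_cast Finset.card_le_card_add_right hA
    by_contra h
    have h2 : K * A.card < 1 * A.card := mul_lt_mul_of_pos_right (not_le.1 h) hA0
    linarith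
  have hK0 : 0 < K := by linarith
  obtain ⟨J, B, hB, h2, h3, h4, -, h6⟩ := core (A.image F) hne K hK'
  rw [hcard] at h2 h3
  have hI : Iso J B := h6
  set A' : Finset ℤ := A.filter fun a => F a ∈ B with hA'
  have hBe : B = A'.image F := by
    ext z
    simp only [hA', Finset.mem_image, Finset.mem_filter]
    constructor
    · intro hz
      obtain ⟨a, ha, rfl⟩ := Finset.mem_image.1 (hB hz)
      exact ⟨a, ⟨ha, hz⟩, rfl⟩
    · rintro ⟨a, ⟨-, ha⟩, rfl⟩
      exact ha
  have hcB : B.card = A'.card := by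
    rw [hBe]
    exact Finset.card_image_of_injOn fun a ha b hb h =>
      hFi a (Finset.mem_filter.1 ha).1 b (Finset.mem_filter.1 hb).1 h
  have him : ∀ m : ℕ, (B.image (fun x l => x l % 2 ^ m)) =
      A'.image (fun x l => f l x % 2 ^ m) := by
    intro m
    rw [hBe, Finset.image_image]
    rfl
  refine ⟨J, A', Finset.filter_subset _ _, by rw [← hcB]; exact h2, h3, h4, ?_, ?_⟩
  · intro x hx y hy m
    exact h6 (F x) (Finset.mem_filter.1 hx).2 (F y) (Finset.mem_filter.1 hy).2 m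
  · intro m
    obtain ⟨g1, g2⟩ := hI.growth m
    rw [him] at g1 g2
    refine ⟨g1, ?_⟩
    have e1 : ∑ l, (J l).card = ∑ l, ((J l).filter (fun j => j < m)).card +
        ∑ l, ((J l).filter (fun j => m ≤ j)).card := by
      rw [← Finset.sum_add_distrib]
      apply Finset.sum_congr rfl
      intro l _
      rw [← Finset.card_filter_add_card_filter_not (fun j => j < m)]
      simp only [not_lt]
    rw [e1, pow_add] at h3
    rw [hcB] at g2 h2
    have g3 : (A'.card : ℝ) ≤ 2 ^ (∑ l, ((J l).filter (fun j => m ≤ j)).card) *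
        (A'.image (fun x l => f l x % 2 ^ m)).card := by
      exact_mod_cast g2
    set a : ℝ := 2 ^ (∑ l, ((J l).filter (fun j => j < m)).card)
    set b : ℝ := 2 ^ (∑ l, ((J l).filter (fun j => m ≤ j)).card)
    set N : ℝ := ((A'.image (fun x l => f l x % 2 ^ m)).card : ℝ)
    have hb : 0 < b := by positivity
    have h7 : a * b ≤ (K ^ 2750 * N) * b := by
      calc a * b ≤ K ^ 2000 * A.card := h3
        _ ≤ K ^ 2000 * (K ^ 750 * A'.card) := mul_le_mul_of_nonneg_left h2 (pow_pos hK0 _).le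
        _ ≤ K ^ 2000 * (K ^ 750 * (b * N)) := mul_le_mul_of_nonneg_left
            (mul_le_mul_of_nonneg_left g3 (pow_pos hK0 _).le) (pow_pos hK0 _).le
        _ = (K ^ 2750 * N) * b := by
          rw [show 2750 = 2000 + 750 by norm_num, pow_add]; ring
    exact le_of_mul_le_mul_right h7 hb

/-- finitely many Freiman homomorphisms give the universal congruences -/
theorem exists_fam (A : Finset ℤ) : ∃ (d : ℕ) (f : Fin d → ℤ → ℤ), (∀ l, Hom A (f l)) ∧
    (∀ x ∈ A, ∀ y ∈ A, ∀ m : ℕ, Close A m x y ↔ ∀ l, (2 : ℤ) ^ m ∣ f l x - f l y) ∧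
    ∀ x ∈ A, ∀ y ∈ A, (∀ l, f l x = f l y) → x = y := by
  classical
  have hid : Hom A fun a => a := fun a _ b _ c _ e _ h => h
  -- for different points the levels are bounded
  have hex : ∀ p : ℤ × ℤ, p.1 ≠ p.2 → ∃ n : ℕ, ¬ Close A n p.1 p.2 := by
    intro p hp
    refine ⟨(p.1 - p.2).natAbs, fun h => ?_⟩
    have h1 := h _ hid
    have h2 : (2 : ℤ) ^ (p.1 - p.2).natAbs ≤ ((p.1 - p.2).natAbs : ℤ) := by
      rw [← Int.dvd_natAbs] at h1
      refine Int.le_of_dvd ?_ h1
      have : p.1 - p.2 ≠ 0 := sub_ne_zero.2 hp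
      omega
    have h3 : (p.1 - p.2).natAbs < 2 ^ (p.1 - p.2).natAbs := Nat.lt_two_pow_self
    have h4 : ((p.1 - p.2).natAbs : ℤ) < 2 ^ (p.1 - p.2).natAbs := by exact_mod_cast h3
    omega
  have hch : ∀ p : ℤ × ℤ, ∃ g : ℤ → ℤ, Hom A g ∧ (p.1 ≠ p.2 →
      ∀ m : ℕ, (2 : ℤ) ^ m ∣ g p.1 - g p.2 → Close A m p.1 p.2) := by
    intro p
    by_cases hp : p.1 = p.2
    · exact ⟨fun a => a, hid, fun h => absurd hp h⟩
    · have hn := Nat.find_spec (hex p hp)
      have hmin := fun (m : ℕ) (hm : m < Nat.find (hex p hp)) => Nat.find_min (hex p hp) hm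
      obtain ⟨g, hg, hg2⟩ : ∃ g : ℤ → ℤ, Hom A g ∧
          ¬ (2 : ℤ) ^ Nat.find (hex p hp) ∣ g p.1 - g p.2 := by
        by_contra hcon
        refine hn fun f hf => ?_
        by_contra h2
        exact hcon ⟨f, hf, h2⟩
      refine ⟨g, hg, fun _ m hm => ?_⟩
      by_contra hcon
      rcases lt_or_ge m (Nat.find (hex p hp)) with h | h
      · exact hmin m h hcon
      · exact hg2 ((pow_dvd_pow 2 h).trans hm)
  choose g hg hg2 using hch
  have hclose : ∀ x ∈ A, ∀ y ∈ A, ∀ m : ℕ, Close A m x y ↔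
      ∀ l : Fin (A ×ˢ A).card, (2 : ℤ) ^ m ∣ g ((A ×ˢ A).equivFin.symm l).1 x -
        g ((A ×ˢ A).equivFin.symm l).1 y := by
    intro x hx y hy m
    constructor
    · intro h l
      exact h _ (hg _)
    · intro h
      by_cases hxy : x = y
      · subst hxy
        intro f _
        rw [sub_self]
        exact dvd_zero _
      · have h1 := h ((A ×ˢ A).equivFin ⟨(x, y), Finset.mem_product.2 ⟨hx, hy⟩⟩)
        rw [Equiv.symm_apply_apply] at h1
        exact hg2 (x, y) hxy m h1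
  refine ⟨(A ×ˢ A).card, fun l => g ((A ×ˢ A).equivFin.symm l).1, fun l => hg _, hclose, ?_⟩
  intro x hx y hy h
  by_contra hxy
  obtain ⟨n, hn⟩ := hex (x, y) hxy
  refine hn ((hclose x hx y hy n).2 fun l => ?_)
  have h1 : g ((A ×ˢ A).equivFin.symm l).1 x = g ((A ×ˢ A).equivFin.symm l).1 y := h l
  rw [h1, sub_self]
  exact dvd_zero _

end Run7.h715.TA
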